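import Mathlib

/-!
# Doubly transitive homomorphisms of quandles: definitions
-/

namespace Q6.Quan

open Quandles

universe u v

/-- The inner automorphism group of a quandle: the group of permutations generated by the
translations `y ↦ x ◃ y`. -/
def Inn (P : Type u) [Quandle P] : Subgroup (Equiv.Perm P) :=
  Subgroup.closure (Set.range fun x : P => Rack.act' x)

variable {P : Type u} {Q : Type v} [Quandle P] [Quandle Q]

/-- The relative inner automorphism group of a homomorphism `f`: the inner automorphisms mapping
every fibre of `f` to itself. -/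
def InnRel (f : P →◃ Q) : Subgroup (Equiv.Perm P) where
  carrier := {g | g ∈ Inn P ∧ ∀ x, f (g x) = f x}
  one_mem' := ⟨Subgroup.one_mem _, fun _ => rfl⟩
  mul_mem' := by
    rintro g h ⟨hg, hg'⟩ ⟨hh, hh'⟩
    exact ⟨Subgroup.mul_mem _ hg hh, fun x => by
      rw [Equiv.Perm.mul_apply, hg', hh']⟩
  inv_mem' := by
    rintro g ⟨hg, hg'⟩
    refine ⟨Subgroup.inv_mem _ hg, fun x => ?_⟩
    have := hg' (g⁻¹ x)
    rw [show g (g⁻¹ x) = x from g.apply_symm_apply x] at this
    exact this.symm

/-- A homomorphism is doubly transitive if it is surjective and its relative inner automorphism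
group is transitive on the ordered pairs of distinct points of every fibre. -/
def DoublyTransitive (f : P →◃ Q) : Prop :=
  Function.Surjective f ∧ ∀ (q : Q) (a b c d : P), f a = q → f b = q → f c = q → f d = q →
    a ≠ b → c ≠ d → ∃ g ∈ InnRel f, g a = c ∧ g b = d

end Q6.Quan
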