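import Pool.Agent.Q6.Quan.Two

/-!
# The final step: groups with two faithful two-transitive actions
-/

namespace Q6.Quan

open MulAction

universe u v w

/-- The arithmetic condition. -/
def Good (l m : ℕ) : Prop :=
  (m = 6 ∧ l = 30) ∨ (m = 10 ∧ (l = 90 ∨ l = 180)) ∨ (m = 16 ∧ (l = 240 ∨ l = 720))

instance (l m : ℕ) : Decidable (Good l m) := by unfold Good; infer_instance

/-- The arithmetic condition for given data. -/
def Good' (l m p k : ℕ) : Prop :=
  2 ≤ p → p * k + 1 = m → l / m ∣ p ^ k * k.factorial → Good l m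

instance (l m p k : ℕ) : Decidable (Good' l m p k) := by unfold Good'; infer_instance

lemma arith_dec : ∀ l ∈ [30, 60, 90, 120, 180, 240, 360, 720], ∀ m < 28, m * (m - 1) ∣ l →
    ∀ p < 28, ∀ k < 28, Good' l m p k := by
  decide

lemma arith {l m p k c : ℕ} (h720 : l ∣ 720) (h30 : 30 ∣ l) (hm : m * (m - 1) ∣ l)
    (hc : c * m = l) (hp : 2 ≤ p) (hpk : p * k + 1 = m) (hd : c ∣ p ^ k * k.factorial)
    (hk : 1 ≤ k) :
    (m = 6 ∧ l = 30) ∨ (m = 10 ∧ (l = 90 ∨ l = 180)) ∨ (m = 16 ∧ (l = 240 ∨ l = 720)) := by
  have hl0 : 0 < l := Nat.pos_of_dvd_of_pos h720 (by decide)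
  have hl : l ∈ [30, 60, 90, 120, 180, 240, 360, 720] := by
    obtain ⟨j, rfl⟩ := h30
    have h1 : j ∣ 24 := Nat.dvd_of_mul_dvd_mul_left (k := 30) (by decide) h720
    have h2 : j ≤ 24 := Nat.le_of_dvd (by decide) h1
    interval_cases j <;> simp_all (config := { decide := true })
  have hl720 : l ≤ 720 := Nat.le_of_dvd (by decide) h720
  have hm28 : m < 28 := by
    by_contra hcon
    have h1 : m * (m - 1) ≤ l := Nat.le_of_dvd hl0 hm
    have h2 : 28 * 27 ≤ m * (m - 1) := Nat.mul_le_mul (by omega) (by omega)
    omega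
  have hp28 : p < 28 := by nlinarith
  have hk28 : k < 28 := by nlinarith
  have hm0 : 0 < m := by omega
  refine arith_dec l hl m hm28 hm p hp28 k hk28 hp hpk ?_
  rw [← hc, Nat.mul_div_cancel _ hm0]
  exact hd

variable {N : Type u} {X : Type v} {Y : Type w} [Group N] [MulAction N X] [MulAction N Y]

/-- There is no group with two faithful (modulo the same kernel) two-transitive actions, one of
them of degree six and the other one with a nontrivial permutation commuting with a point
stabiliser. -/
lemma final (h2X : TwoTrans N X) (h2Y : TwoTrans N Y) (hY : Nat.card Y = 6)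
    (hker : (toPermHom N X).ker = (toPermHom N Y).ker) {x : X} (σ : Equiv.Perm X) (hσ : σ ≠ 1)
    (hσx : σ x = x) (hcomm : ∀ g : N, g • x = x → ∀ y, σ (g • y) = g • σ y) : False := by
  classical
  have hfinY : Finite Y := Nat.finite_of_card_ne_zero (by rw [hY]; decide)
  have := Fintype.ofFinite Y
  have hcardY : Fintype.card Y = 6 := by rw [← Nat.card_eq_fintype_card, hY]
  set ρX := toPermHom N X with hρX
  set ρY := toPermHom N Y with hρY
  set K := ρY.ker with hK
  set l := K.index with hl
  have hl720 : l ∣ 720 := by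
    rw [hl, hK, Subgroup.index_ker]
    have h1 := Subgroup.card_subgroup_dvd_card ρY.range
    rw [Nat.card_perm, hY] at h1
    exact h1
  have hl0 : l ≠ 0 := fun h => by rw [h] at hl720; exact absurd hl720 (by decide)
  obtain ⟨z, hz⟩ : ∃ z, σ z ≠ z := by
    by_contra hcon
    push Not at hcon
    exact hσ (Equiv.ext hcon)
  have hzx : x ≠ z := fun h => hz (by rw [← h, hσx])
  have hntX : Nontrivial X := ⟨⟨x, z, hzx⟩⟩
  have hntY : Nontrivial Y := by
    apply Finite.one_lt_card_iff_nontrivial.1
    rw [hY]
    decide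
  obtain ⟨y, y', hyy'⟩ := hntY.exists_pair_ne
  have hKx : K ≤ stabilizer N x := by
    intro g hg
    rw [← hker] at hg
    exact DFunLike.congr_fun (show ρX g = 1 from hg) x
  have hKy : ∀ y : Y, K ≤ stabilizer N y := fun y g hg =>
    DFunLike.congr_fun (show ρY g = 1 from hg) y
  have hSx : (stabilizer N x).index = Nat.card X := stabilizer_index h2X x
  have hSy : ∀ y : Y, (stabilizer N y).index = 6 := fun y => (stabilizer_index h2Y y).trans hY
  have hfinX : Finite X := by
    apply Nat.finite_of_card_ne_zero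
    rw [← hSx]
    intro h0
    have := Subgroup.index_dvd_of_le hKx
    rw [h0, zero_dvd_iff] at this
    exact hl0 this
  set m := Nat.card X with hm
  have hm2 : m * (m - 1) ∣ l := mul_dvd_index h2X (K := K) (by rw [← hker]) hzx
  have h30 : 30 ∣ l := by
    have := mul_dvd_index h2Y (K := K) le_rfl hyy'
    rwa [hY] at this
  have hcx : Nat.card ((stabilizer N x).map ρX) * m = l := by
    rw [← Subgroup.relIndex_ker, hker, ← hSx]
    exact Subgroup.relIndex_mul_index hKx
  have hcxY : Nat.card ((stabilizer N x).map ρY) * m = l := by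
    rw [← Subgroup.relIndex_ker, ← hSx]
    exact Subgroup.relIndex_mul_index hKx
  have hcy : ∀ y : Y, Nat.card ((stabilizer N y).map ρY) * 6 = l := by
    intro y
    rw [← Subgroup.relIndex_ker, ← hSy y]
    exact Subgroup.relIndex_mul_index (hKy y)
  obtain ⟨p, k, hp, hpk, hd⟩ := stab_dvd h2X σ hσ hσx hcomm
  have hk1 : 1 ≤ k := by
    rcases Nat.eq_zero_or_pos k with h0 | h0
    · exfalso
      rw [h0, mul_zero, zero_add] at hpk
      exact (Finite.one_lt_card_iff_nontrivial.2 hntX).ne hpk
    · exact h0
  -- the image on `Y`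
  have hΓ : Nat.card ρY.range = l := by rw [hl, hK, Subgroup.index_ker]
  rcases arith hl720 h30 hm2 hcx hp.two_le hpk hd hk1 with ⟨hm6, hl30⟩ | ⟨hm10, hl'⟩ | ⟨hm16, hl'⟩
  · -- order thirty
    rw [hl30] at hcy hΓ
    obtain ⟨γ, hγ⟩ := exists_prime_orderOf_dvd_card' (G := ρY.range) 2 (by rw [hΓ]; decide)
    rw [← Subgroup.orderOf_coe] at hγ
    obtain ⟨u, hu⟩ := γ.2
    rw [← hu] at hγ
    have hufix : ∀ y : Y, ρY u y ≠ y := by
      intro y hy
      have h1 : ρY u ∈ (stabilizer N y).map ρY := ⟨u, hy, rfl⟩
      have h2 := Subgroup.orderOf_dvd_natCard _ h1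
      have h3 : Nat.card ((stabilizer N y).map ρY) = 5 := by
        have := hcy y
        omega
      rw [hγ, h3] at h2
      exact absurd h2 (by decide)
    obtain ⟨n, hn⟩ := Equiv.Perm.cycleType_prime_order
      (by rw [hγ]; exact Nat.prime_two : (orderOf (ρY u)).Prime)
    rw [hγ] at hn
    have hsup : (ρY u).support = Finset.univ := by
      ext y
      rw [Equiv.Perm.mem_support]
      exact ⟨fun _ => Finset.mem_univ _, fun _ => hufix y⟩
    have hsum := Equiv.Perm.sum_cycleType (ρY u)
    rw [hsup, Finset.card_univ, hcardY] at hsum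
    have hn2 : n = 2 := by
      rw [hn, Multiset.sum_replicate, smul_eq_mul] at hsum
      omega
    have hsign : Equiv.Perm.sign (ρY u) = -1 := by
      rw [Equiv.Perm.sign_of_cycleType, hn, hn2]
      decide
    -- the even part
    set M := (Equiv.Perm.sign.comp ρY).ker with hM
    have hMi : M.index = 2 := by
      rw [hM, Subgroup.index_ker]
      have : (Equiv.Perm.sign.comp ρY).range = ⊤ := by
        rw [eq_top_iff]
        intro s _
        rcases Int.units_eq_one_or s with rfl | rfl
        · exact Subgroup.one_mem _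
        · exact ⟨u, hsign⟩
      rw [this]
      simp
    have hKM : K ≤ M := by
      intro g hg
      change Equiv.Perm.sign (ρY g) = 1
      have : ρY g = 1 := hg
      rw [this, map_one]
    have hMc : Nat.card (M.map ρY) * 2 = 30 := by
      rw [← Subgroup.relIndex_ker, ← hMi, ← hl30]
      exact Subgroup.relIndex_mul_index hKM
    have hMne : ∃ g ∈ M, ∃ y : Y, g • y ≠ y := by
      by_contra hcon
      push Not at hcon
      have : M.map ρY = ⊥ := by
        rw [eq_bot_iff]
        rintro _ ⟨g, hg, rfl⟩
        rw [Subgroup.mem_bot]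
        ext y
        exact hcon g hg y
      rw [this] at hMc
      simp at hMc
    obtain ⟨g, hg, y0, hgy⟩ := hMne
    have h6 := card_dvd_of_trans (normal_trans h2Y (MonoidHom.normal_ker _) hg hgy) y0
    rw [hY] at h6
    have h15 : Nat.card (M.map ρY) = 15 := by omega
    rw [← hρY, h15] at h6
    exact absurd h6 (by decide)
  · -- degree ten: Jordan
    have h3 : 3 ∣ Nat.card ((stabilizer N y).map ρY) := by
      have := hcy y
      rcases hl' with h | h <;> omega
    obtain ⟨γ, hγ⟩ := exists_prime_orderOf_dvd_card' (G := (stabilizer N y).map ρY) 3 h3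
    rw [← Subgroup.orderOf_coe] at hγ
    obtain ⟨b, hb, hb'⟩ := γ.2
    rw [← hb'] at hγ
    obtain ⟨n, hn⟩ := Equiv.Perm.cycleType_prime_order
      (by rw [hγ]; exact Nat.prime_three : (orderOf (ρY b)).Prime)
    rw [hγ] at hn
    have hlt : (ρY b).support.card < 6 := by
      rw [← hcardY, ← Finset.card_univ]
      apply Finset.card_lt_card
      rw [Finset.ssubset_univ_iff]
      intro h
      have : y ∈ (ρY b).support := by rw [h]; exact Finset.mem_univ _
      rw [Equiv.Perm.mem_support] at this
      exact this hb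
    have hsum := Equiv.Perm.sum_cycleType (ρY b)
    have hn0 : n = 0 := by
      rw [hn, Multiset.sum_replicate, smul_eq_mul] at hsum
      omega
    have h3c : (ρY b).IsThreeCycle := by
      change (ρY b).cycleType = {3}
      rw [hn, hn0]
      rfl
    have hprim : IsPreprimitive ρY.range Y := by
      apply isPreprimitive_of_is_two_pretransitive
      rw [is_two_pretransitive_iff]
      intro a b c d hab hcd
      obtain ⟨g, hg1, hg2⟩ := h2Y a b c d hab hcd
      exact ⟨⟨ρY g, g, rfl⟩, hg1, hg2⟩
    have hle := Equiv.Perm.alternatingGroup_le_of_isPreprimitive_of_isThreeCycle_mem hprim h3c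
      ⟨b, rfl⟩
    have h5 := Subgroup.card_dvd_of_le hle
    rw [hΓ] at h5
    have h6 : 2 * Nat.card (alternatingGroup Y) = 720 := by
      rw [two_mul_nat_card_alternatingGroup, Nat.card_perm, hY]
      rfl
    have h7 : Nat.card (alternatingGroup Y) = 360 := by omega
    rw [h7] at h5
    rcases hl' with h | h <;> rw [h] at h5 <;> exact absurd h5 (by decide)
  · -- degree sixteen
    have hodd : ¬ 2 ∣ Nat.card ((stabilizer N x).map ρY) := by
      rw [hm16] at hcxY
      rcases hl' with h | h <;> omega
    have h5 : 5 ∣ Nat.card ((stabilizer N x).map ρY) := by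
      rw [hm16] at hcxY
      rcases hl' with h | h <;> omega
    have hF5 : Fact (Nat.Prime 5) := ⟨Nat.prime_five⟩
    obtain ⟨γ, hγ⟩ := exists_prime_orderOf_dvd_card' (G := (stabilizer N x).map ρY) 5 h5
    rw [← Subgroup.orderOf_coe] at hγ
    obtain ⟨a, ha, ha'⟩ := γ.2
    rw [← ha'] at hγ
    obtain ⟨n, hn⟩ := Equiv.Perm.cycleType_prime_order
      (by rw [hγ]; exact Nat.prime_five : (orderOf (ρY a)).Prime)
    rw [hγ] at hn
    have hle6 : (ρY a).support.card ≤ 6 := by
      rw [← hcardY]
      exact Finset.card_le_univ _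
    have hsum := Equiv.Perm.sum_cycleType (ρY a)
    have hn0 : n = 0 := by
      rw [hn, Multiset.sum_replicate, smul_eq_mul] at hsum
      omega
    have hcyc : (ρY a).IsCycle := by
      rw [← Equiv.Perm.card_cycleType_eq_one, hn, hn0]
      rfl
    have hs5 : (ρY a).support.card = 5 := by
      rw [← hsum, hn, hn0]
      rfl
    -- the fixed point
    obtain ⟨y0, hy0⟩ : ∃ y0, (ρY a).supportᶜ = {y0} := by
      rw [← Finset.card_eq_one, Finset.card_compl, hs5, hcardY]
    have hstab : ∀ g : N, g • x = x → g • y0 = y0 := by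
      by_contra hcon
      push Not at hcon
      obtain ⟨g, hgx, hgy⟩ := hcon
      -- the stabiliser of `x` is transitive on `Y`
      have hmem : ∀ y, y ≠ y0 → y ∈ (ρY a).support := by
        intro y hy
        by_contra h
        rw [← Finset.mem_compl, hy0, Finset.mem_singleton] at h
        exact hy h
      have hreach : ∀ y, ∃ h ∈ stabilizer N x, h • y0 = y := by
        intro y
        by_cases hy : y = y0
        · exact ⟨1, Subgroup.one_mem _, by rw [one_smul, hy]⟩
        · have h1 := hmem y hy
          have h2 := hmem (g • y0) hgy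
          rw [Equiv.Perm.mem_support] at h1 h2
          obtain ⟨i, hi⟩ := hcyc.sameCycle h2 h1
          refine ⟨a ^ i * g, Subgroup.mul_mem _ (Subgroup.zpow_mem _ ha i) hgx, ?_⟩
          rw [mul_smul, ← hi, ← map_zpow]
          rfl
      have htr : ∀ y z : Y, ∃ b ∈ stabilizer N x, b • y = z := by
        intro y z
        obtain ⟨h, hh, hy⟩ := hreach y
        obtain ⟨h', hh', hz⟩ := hreach z
        refine ⟨h' * h⁻¹, Subgroup.mul_mem _ hh' (Subgroup.inv_mem _ hh), ?_⟩
        rw [mul_smul, ← hy, inv_smul_smul, hz]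
      have h6 := card_dvd_of_trans htr y0
      rw [hY] at h6
      exact hodd (dvd_trans (by decide) h6)
    have hle : (stabilizer N x).map ρY ≤ (stabilizer N y0).map ρY :=
      Subgroup.map_mono (fun g hg => hstab g hg)
    have hdvd := Subgroup.card_dvd_of_le hle
    have e1 := hcy y0
    rw [hm16] at hcxY
    rcases hl' with h | h
    · have e2 : Nat.card ((stabilizer N x).map ρY) = 15 := by omega
      have e3 : Nat.card ((stabilizer N y0).map ρY) = 40 := by omega
      rw [e2, e3] at hdvd
      exact absurd hdvd (by decide)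
    · have e2 : Nat.card ((stabilizer N x).map ρY) = 45 := by omega
      have e3 : Nat.card ((stabilizer N y0).map ρY) = 120 := by omega
      rw [e2, e3] at hdvd
      exact absurd hdvd (by decide)

end Q6.Quan
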