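import Pool.Agent.Q6.Quan.Defs
import Pool.Agent.Q6.Quan.Final

/-!
# No doubly transitive homomorphism has a fibre of order six
-/

namespace Q6.Quan

open Quandles MulAction

universe u v

variable {P : Type u} {Q : Type v} [Quandle P] [Quandle Q]

lemma papp {α : Type*} (g : Equiv.Perm α) (x : α) : g (g⁻¹ x) = x := g.apply_symm_apply x

lemma pinv {α : Type*} (g : Equiv.Perm α) (x : α) : g⁻¹ (g x) = x := g.symm_apply_apply x

/-! ### Inner automorphisms -/

lemma act'_mem (x : P) : Rack.act' x ∈ Inn P := Subgroup.subset_closure ⟨x, rfl⟩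

/-- Inner automorphisms are automorphisms. -/
lemma Inn.map_act {g : Equiv.Perm P} (hg : g ∈ Inn P) (x y : P) : g (x ◃ y) = g x ◃ g y := by
  revert x y
  refine Subgroup.closure_induction (p := fun g _ => ∀ x y : P, g (x ◃ y) = g x ◃ g y) ?_ ?_ ?_ ?_
    hg
  · rintro _ ⟨z, rfl⟩ x y
    exact Rack.self_distrib
  · intro x y
    rfl
  · intro g h _ _ ihg ihh x y
    rw [Equiv.Perm.mul_apply, ihh, ihg]
    rfl
  · intro g _ ih x y
    apply g.injective
    rw [ih]
    simp only [papp]

/-- Conjugation by an inner automorphism. -/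
lemma Inn.conj_act' {g : Equiv.Perm P} (hg : g ∈ Inn P) (x y : P) :
    g (Rack.act' x (g⁻¹ y)) = Rack.act' (g x) y := by
  rw [Rack.act'_apply, Inn.map_act hg, papp, Rack.act'_apply]

lemma Inn.conj_act'_inv {g : Equiv.Perm P} (hg : g ∈ Inn P) (x y : P) :
    g ((Rack.act' x)⁻¹ (g⁻¹ y)) = (Rack.act' (g x))⁻¹ y := by
  apply (Rack.act' (g x)).injective
  rw [papp, ← Inn.conj_act' hg, pinv,
    papp, papp]

variable (f : P →◃ Q)

lemma f_act (x y : P) : f (Rack.act' x y) = f x ◃ f y := f.map_act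

lemma f_act_inv (x y : P) : f ((Rack.act' x)⁻¹ y) = f x ◃⁻¹ f y := by
  rw [← Rack.left_cancel (f x), Rack.act_invAct_eq, ← f_act, papp]

/-- Conjugation by a translation preserves the relative inner automorphism group. -/
lemma conj_mem (x : P) {g : Equiv.Perm P} (hg : g ∈ InnRel f) :
    Rack.act' x * g * (Rack.act' x)⁻¹ ∈ InnRel f := by
  refine ⟨Subgroup.mul_mem _ (Subgroup.mul_mem _ (act'_mem x) hg.1)
    (Subgroup.inv_mem _ (act'_mem x)), fun y => ?_⟩
  rw [Equiv.Perm.mul_apply, Equiv.Perm.mul_apply, f_act, hg.2, f_act_inv, Rack.act_invAct_eq]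

lemma conj_mem' (x : P) {g : Equiv.Perm P} (hg : g ∈ InnRel f) :
    (Rack.act' x)⁻¹ * g * Rack.act' x ∈ InnRel f := by
  refine ⟨Subgroup.mul_mem _ (Subgroup.mul_mem _ (Subgroup.inv_mem _ (act'_mem x)) hg.1)
    (act'_mem x), fun y => ?_⟩
  rw [Equiv.Perm.mul_apply, Equiv.Perm.mul_apply, f_act_inv, hg.2, f_act, Rack.invAct_act_eq]

lemma quot_mem {x x' : P} (h : f x = f x') : Rack.act' x * (Rack.act' x')⁻¹ ∈ InnRel f := by
  refine ⟨Subgroup.mul_mem _ (act'_mem x) (Subgroup.inv_mem _ (act'_mem x')), fun y => ?_⟩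
  rw [Equiv.Perm.mul_apply, f_act, f_act_inv, h, Rack.act_invAct_eq]

/-! ### Fibres -/

/-- The fibre. -/
abbrev Fib (q : Q) : Type u := {x : P // f x = q}

instance (q : Q) : MulAction (InnRel f) (Fib f q) where
  smul g x := ⟨g.1 x.1, (g.2.2 x.1).trans x.2⟩
  one_smul _ := rfl
  mul_smul _ _ _ := rfl

lemma smul_val (q : Q) (g : InnRel f) (x : Fib f q) : (g • x).1 = g.1 x.1 := rfl

variable {f}

lemma DoublyTransitive.twoTrans (hf : DoublyTransitive f) (q : Q) :
    TwoTrans (InnRel f) (Fib f q) := by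
  intro a b c d hab hcd
  obtain ⟨g, hg, h1, h2⟩ := hf.2 q a.1 b.1 c.1 d.1 a.2 b.2 c.2 d.2
    (fun h => hab (Subtype.ext h)) (fun h => hcd (Subtype.ext h))
  exact ⟨⟨g, hg⟩, Subtype.ext h1, Subtype.ext h2⟩

/-! ### Step 1: a fibre acting nontrivially -/

/-- The condition that all quotients of translations by points of the same fibre fix the fibre of
`q`. -/
def AllFix (f : P →◃ Q) (q : Q) : Prop :=
  ∀ x x' : P, f x = f x' → ∀ y, f y = q → Rack.act' x y = Rack.act' x' y

lemma AllFix.act {q : Q} (h : AllFix f q) (z : P) : AllFix f (f z ◃ q) := by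
  intro x x' hx y hy
  -- move everything by the inverse of the translation by `z`
  have h1 : f ((Rack.act' z)⁻¹ x) = f ((Rack.act' z)⁻¹ x') := by rw [f_act_inv, f_act_inv, hx]
  have h2 : f ((Rack.act' z)⁻¹ y) = q := by rw [f_act_inv, hy, Rack.invAct_act_eq]
  have h3 := h _ _ h1 _ h2
  have h4 := congrArg (Rack.act' z) h3
  rw [Inn.conj_act' (act'_mem z), Inn.conj_act' (act'_mem z), papp,
    papp] at h4
  exact h4

lemma AllFix.act_inv {q : Q} (h : AllFix f q) (z : P) : AllFix f (f z ◃⁻¹ q) := by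
  intro x x' hx y hy
  have h1 : f (Rack.act' z x) = f (Rack.act' z x') := by rw [f_act, f_act, hx]
  have h2 : f (Rack.act' z y) = q := by rw [f_act, hy, Rack.act_invAct_eq]
  have h3 := h _ _ h1 _ h2
  apply (Rack.act' z).injective
  have e : ∀ w, Rack.act' z (Rack.act' w y) = Rack.act' (Rack.act' z w) (Rack.act' z y) := by
    intro w
    rw [← Inn.conj_act' (act'_mem z), pinv]
  rw [e, e, h3]

lemma AllFix.inn {g : Equiv.Perm P} (hg : g ∈ Inn P) :
    ∀ y, (AllFix f (f y) ↔ AllFix f (f (g y))) := by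
  refine Subgroup.closure_induction (p := fun g _ => ∀ y, (AllFix f (f y) ↔ AllFix f (f (g y))))
    ?_ ?_ ?_ ?_ hg
  · rintro _ ⟨z, rfl⟩ y
    constructor
    · intro h
      change AllFix f (f (Rack.act' z y))
      rw [f_act]
      exact h.act z
    · intro h
      change AllFix f (f (Rack.act' z y)) at h
      rw [f_act] at h
      have := h.act_inv z
      rwa [Rack.invAct_act_eq] at this
  · intro y
    rfl
  · intro g h _ _ ihg ihh y
    rw [ihh y, ihg (h y)]
    rfl
  · intro g _ ih y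
    rw [ih (g⁻¹ y), papp]

/-- If all quotients fix, the relative group commutes with the inner group there. -/
lemma AllFix.comm {g h : Equiv.Perm P} (hg : g ∈ InnRel f) (hh : h ∈ Inn P) :
    ∀ y, AllFix f (f y) → g (h y) = h (g y) := by
  refine Subgroup.closure_induction (p := fun h _ => ∀ y, AllFix f (f y) → g (h y) = h (g y))
    ?_ ?_ ?_ ?_ hh
  · rintro _ ⟨z, rfl⟩ y hy
    change g (z ◃ y) = z ◃ g y
    rw [Inn.map_act hg.1]
    have := hy (g z) z (hg.2 z) (g y) (hg.2 y)
    exact this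
  · intro y _
    rfl
  · intro h1 h2 _ hm2 ih1 ih2 y hy
    rw [Equiv.Perm.mul_apply, Equiv.Perm.mul_apply, ih1 _ ((AllFix.inn hm2 y).1 hy), ih2 y hy]
  · intro h hm ih y hy
    apply h.injective
    have h1 : AllFix f (f (h⁻¹ y)) := (AllFix.inn (Subgroup.inv_mem _ hm) y).1 hy
    rw [← ih _ h1, papp, papp]

/-- Step 1. -/
lemma exists_moving (hf : DoublyTransitive f) {q : Q} (hq : Nat.card (Fib f q) = 6) :
    ∃ x0 x1 : P, f x0 = f x1 ∧ ∃ y, f y = q ∧ Rack.act' x0 ((Rack.act' x1)⁻¹ y) ≠ y := by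
  by_contra hcon
  push Not at hcon
  have hfin : Finite (Fib f q) := Nat.finite_of_card_ne_zero (by rw [hq]; decide)
  -- all quotients fix `q`
  have hall : ∀ x x' : P, f x = f x' → ∀ y, f y = q → (Rack.act' x')⁻¹ y = (Rack.act' x)⁻¹ y := by
    intro x x' hx y hy
    apply (Rack.act' x).injective
    rw [hcon x x' hx y hy, papp]
  -- three distinct points
  have hF := Fintype.ofFinite (Fib f q)
  have hcard : 2 < Fintype.card (Fib f q) := by
    rw [← Nat.card_eq_fintype_card, hq]
    decide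
  obtain ⟨y1, y2, y3, h12, h13, h23⟩ := Fintype.two_lt_card_iff.1 hcard
  -- the condition at the inverse translates
  have hA : AllFix f q := by
    intro x x' hx y hy
    have h1 : f ((Rack.act' x')⁻¹ x) = f x' := by rw [f_act_inv, hx, Quandle.fix_inv]
    have h2 := hcon _ _ h1 y hy
    rw [← Inn.conj_act' (Subgroup.inv_mem _ (act'_mem x')), inv_inv, papp] at h2
    have h3 := congrArg (Rack.act' x') h2
    rwa [papp] at h3
  obtain ⟨g, hg1, hg2⟩ := hf.twoTrans q y1 y2 y1 y3 h12 h13
  obtain ⟨h, hh1, hh2⟩ := hf.twoTrans q y1 y2 y2 y1 h12 h12.symm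
  have e1 : g.1 (h.1 y1.1) = h.1 (g.1 y1.1) :=
    AllFix.comm g.2 h.2.1 y1.1 (by rw [y1.2]; exact hA)
  have e2 : h.1 y1.1 = y2.1 := congrArg Subtype.val hh1
  have e3 : g.1 y1.1 = y1.1 := congrArg Subtype.val hg1
  have e4 : g.1 y2.1 = y3.1 := congrArg Subtype.val hg2
  rw [e2, e3, e4, e2] at e1
  exact h23 (Subtype.ext e1.symm)

/-! ### The theorem -/

/-- The kernel of the action on a fibre. -/
def Ker (f : P →◃ Q) (q : Q) : Subgroup (InnRel f) := (toPermHom (InnRel f) (Fib f q)).ker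

lemma Ker.normal (q : Q) : (Ker f q).Normal := MonoidHom.normal_ker _

lemma mem_Ker {q : Q} {g : InnRel f} : g ∈ Ker f q ↔ ∀ x : P, f x = q → g.1 x = x := by
  constructor
  · intro h x hx
    have h1 : toPermHom (InnRel f) (Fib f q) g = 1 := h
    exact congrArg Subtype.val (DFunLike.congr_fun h1 ⟨x, hx⟩)
  · intro h
    change toPermHom (InnRel f) (Fib f q) g = 1
    ext x
    exact h x.1 x.2

lemma mem_Ker' {q : Q} {g : InnRel f} : g ∈ Ker f q ↔ ∀ x : Fib f q, g • x = x := by
  rw [mem_Ker]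
  exact ⟨fun h x => Subtype.ext (h x.1 x.2), fun h x hx => congrArg Subtype.val (h ⟨x, hx⟩)⟩

/-- A doubly transitive homomorphism of quandles has no fibre with exactly six elements. -/
theorem no_six (hf : DoublyTransitive f) (q : Q) : Nat.card (Fib f q) ≠ 6 := by
  intro hq
  obtain ⟨x0, x1, hx, y1, hy1, hmove⟩ := exists_moving hf hq
  set r := f x0 with hr
  -- the moving element
  let t0 : InnRel f := ⟨Rack.act' x0 * (Rack.act' x1)⁻¹, quot_mem f hx⟩
  have ht0 : t0 • (⟨y1, hy1⟩ : Fib f q) ≠ ⟨y1, hy1⟩ := fun h => hmove (congrArg Subtype.val h)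
  have h2X := hf.twoTrans r
  have h2Y := hf.twoTrans q
  -- elements fixing the fibre of `r` pointwise commute with the moving element
  have hcomm : ∀ g ∈ Ker f r, ∀ n : InnRel f, g * (n * t0 * n⁻¹) = (n * t0 * n⁻¹) * g := by
    have h1 : ∀ g ∈ Ker f r, g * t0 = t0 * g := by
      intro g hg
      rw [mem_Ker] at hg
      apply Subtype.ext
      ext y
      change g.1 (Rack.act' x0 ((Rack.act' x1)⁻¹ y)) = Rack.act' x0 ((Rack.act' x1)⁻¹ (g.1 y))
      have e1 : ∀ w, g.1 (Rack.act' x0 w) = Rack.act' x0 (g.1 w) := by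
        intro w
        have := Inn.conj_act' g.2.1 x0 (g.1 w)
        rwa [pinv, hg x0 rfl] at this
      have e2 : ∀ w, g.1 ((Rack.act' x1)⁻¹ w) = (Rack.act' x1)⁻¹ (g.1 w) := by
        intro w
        have := Inn.conj_act'_inv g.2.1 x1 (g.1 w)
        rwa [pinv, hg x1 hx.symm] at this
      rw [e1, e2]
    intro g hg n
    have h3 := h1 (n⁻¹ * g * n) (by
      have := (Ker.normal (f := f) r).conj_mem g hg n⁻¹
      rwa [inv_inv] at this)
    calc g * (n * t0 * n⁻¹) = n * ((n⁻¹ * g * n) * t0) * n⁻¹ := by group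
      _ = n * (t0 * (n⁻¹ * g * n)) * n⁻¹ := by rw [h3]
      _ = (n * t0 * n⁻¹) * g := by group
  -- Step 2
  have hstep2 : Ker f r ≤ Ker f q := by
    intro g hg
    rw [mem_Ker']
    intro y
    refine core (X := Fib f q) h2Y h2Y hq ⟨y1, hy1⟩ (Ker.normal (f := f) r) ?_ hg y
    intro a ha w haw w'
    have h3 := normal_trans h2Y (A := Subgroup.normalClosure {t0}) Subgroup.normalClosure_normal
      (Subgroup.subset_normalClosure rfl) ht0
    refine semiregular (A := Ker f r) (B := Subgroup.normalClosure {t0}) ?_ h3 ha haw w'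
    intro a ha b hb z
    have h4 : a * b = b * a := by
      have h5 : Subgroup.normalClosure {t0} ≤ Subgroup.centralizer ({a} : Set (InnRel f)) := by
        rw [Subgroup.normalClosure, Subgroup.closure_le]
        intro c hc
        rw [Group.mem_conjugatesOfSet_iff] at hc
        obtain ⟨t, rfl, hc⟩ := hc
        obtain ⟨n, hn⟩ := isConj_iff.1 hc
        rw [SetLike.mem_coe, Subgroup.mem_centralizer_singleton_iff, ← hn]
        exact (hcomm a ha n).symm
      exact (Subgroup.mem_centralizer_singleton_iff.1 (h5 hb)).symm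
    rw [← mul_smul, h4, mul_smul]
  -- the other fibre
  set q' := r ◃⁻¹ q with hq'
  have hs : ∀ y, f y = q → f ((Rack.act' x0)⁻¹ y) = q' := fun y hy => by rw [f_act_inv, hy]
  have hs1 : ∀ y, f y = q → f ((Rack.act' x1)⁻¹ y) = q' := fun y hy => by
    rw [f_act_inv, hy, ← hx]
  have hs' : ∀ y, f y = q' → f (Rack.act' x0 y) = q := fun y hy => by
    rw [f_act, hy, hq', Rack.act_invAct_eq]
  have hr0 : ∀ y, f y = r → f ((Rack.act' x0)⁻¹ y) = r := fun y hy => by
    rw [f_act_inv, hy, Quandle.fix_inv]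
  -- Step 4
  have hstep4 : Ker f q ⊓ Ker f q' ≤ Ker f r := by
    intro g hg
    by_contra hgr
    rw [mem_Ker'] at hgr
    push Not at hgr
    obtain ⟨w, hw⟩ := hgr
    have hn : (Ker f q ⊓ Ker f q').Normal := by
      have h1 := Ker.normal (f := f) q
      have h2 := Ker.normal (f := f) q'
      infer_instance
    obtain ⟨c, hc, hcx⟩ := normal_trans h2X hn hg hw ⟨x1, hx.symm⟩ ⟨x0, rfl⟩
    have hcx' : c.1 x1 = x0 := congrArg Subtype.val hcx
    have hcq := mem_Ker.1 hc.1
    have hcq' := mem_Ker.1 hc.2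
    apply hmove
    rw [← hcx', ← Inn.conj_act' c.2.1]
    have h1 : c.1⁻¹ ((Rack.act' x1)⁻¹ y1) = (Rack.act' x1)⁻¹ y1 := by
      apply c.1.injective
      rw [papp, hcq' _ (hs1 _ hy1)]
    rw [h1, papp, hcq _ hy1]
  -- Step 5
  have hstep5 : Ker f q ≤ Ker f r := by
    by_cases hB : Ker f q' ≤ Ker f r
    · -- conjugate by the translation of `x0`
      intro a ha
      rw [mem_Ker] at ha ⊢
      let b : InnRel f := ⟨(Rack.act' x0)⁻¹ * a.1 * Rack.act' x0, conj_mem' f x0 a.2⟩
      have hb : b ∈ Ker f q' := by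
        rw [mem_Ker]
        intro y hy
        change (Rack.act' x0)⁻¹ (a.1 (Rack.act' x0 y)) = y
        rw [ha _ (hs' y hy), pinv]
      have hb' := mem_Ker.1 (hB hb)
      intro y hy
      have h1 := hb' _ (hr0 y hy)
      change (Rack.act' x0)⁻¹ (a.1 (Rack.act' x0 ((Rack.act' x0)⁻¹ y))) = (Rack.act' x0)⁻¹ y at h1
      rw [papp] at h1
      exact (Rack.act' x0)⁻¹.injective h1
    · obtain ⟨b, hb, hbr⟩ := SetLike.not_le_iff_exists.1 hB
      rw [mem_Ker'] at hbr
      push Not at hbr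
      obtain ⟨w, hw⟩ := hbr
      have htr := normal_trans h2X (Ker.normal (f := f) q') hb hw
      -- `Ker f r` acts trivially on the fibre of `q'`
      have hrq' : Ker f r ≤ Ker f q' := by
        intro g hg
        rw [mem_Ker] at hg ⊢
        let c : InnRel f := ⟨Rack.act' x0 * g.1 * (Rack.act' x0)⁻¹, conj_mem f x0 g.2⟩
        have hc : c ∈ Ker f r := by
          rw [mem_Ker]
          intro y hy
          change Rack.act' x0 (g.1 ((Rack.act' x0)⁻¹ y)) = y
          rw [hg _ (hr0 y hy), papp]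
        have hc' := mem_Ker.1 (hstep2 hc)
        intro y hy
        have h1 := hc' _ (hs' y hy)
        change Rack.act' x0 (g.1 ((Rack.act' x0)⁻¹ (Rack.act' x0 y))) = Rack.act' x0 y at h1
        rw [pinv] at h1
        exact (Rack.act' x0).injective h1
      have hcard' : Nat.card (Fib f q') = 6 := by
        rw [← hq]
        exact Nat.card_congr ⟨fun y => ⟨Rack.act' x0 y.1, hs' _ y.2⟩,
          fun y => ⟨(Rack.act' x0)⁻¹ y.1, hs _ y.2⟩, fun y => Subtype.ext (pinv _ _),
          fun y => Subtype.ext (papp _ _)⟩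
      have hle : Ker f q ≤ Ker f q' := by
        intro a ha
        rw [mem_Ker']
        intro y
        refine core h2X (hf.twoTrans q') hcard' (⟨x0, rfl⟩ : Fib f r) (Ker.normal (f := f) q) ?_ ha y
        intro a ha x hax
        have h6 : a ∈ Ker f r := by
          rw [mem_Ker']
          refine semiregular (A := Ker f q) (B := Ker f q') ?_ htr ha hax
          intro a ha b hb z
          have h7 : a * b * a⁻¹ * b⁻¹ ∈ Ker f q ⊓ Ker f q' := by
            constructor
            · have := (Ker f q).mul_mem ha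
                ((Ker.normal (f := f) q).conj_mem a⁻¹ ((Ker f q).inv_mem ha) b)
              have e : a * b * a⁻¹ * b⁻¹ = a * (b * a⁻¹ * b⁻¹) := by group
              rw [e]
              exact this
            · exact (Ker f q').mul_mem ((Ker.normal (f := f) q').conj_mem b hb a)
                ((Ker f q').inv_mem hb)
          have h8 := mem_Ker'.1 (hstep4 h7) (b • a • z)
          have e : (a * b * a⁻¹ * b⁻¹) • b • a • z = a • b • z := by
            rw [mul_smul, inv_smul_smul, mul_smul, inv_smul_smul, mul_smul]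
          rw [e] at h8
          exact h8
        exact mem_Ker'.1 (hrq' h6)
      intro a ha
      exact hstep4 ⟨ha, hle ha⟩
  -- Step 6
  have hker : (toPermHom (InnRel f) (Fib f r)).ker = (toPermHom (InnRel f) (Fib f q)).ker :=
    le_antisymm hstep2 hstep5
  let σ : Equiv.Perm (Fib f r) := ⟨fun y => ⟨Rack.act' x0 y.1, by
      rw [f_act, y.2, Quandle.fix]⟩, fun y => ⟨(Rack.act' x0)⁻¹ y.1, hr0 _ y.2⟩,
    fun y => Subtype.ext (pinv _ _), fun y => Subtype.ext (papp _ _)⟩
  have hσv : ∀ y : Fib f r, (σ y).1 = Rack.act' x0 y.1 := fun _ => rfl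
  refine final h2X h2Y hq hker (x := ⟨x0, rfl⟩) σ ?_ (Subtype.ext Quandle.fix) ?_
  · intro hσ
    have h0 : ∀ y, f y = r → Rack.act' x0 y = y := by
      intro y hy
      have := hσv ⟨y, hy⟩
      rw [hσ] at this
      exact this.symm
    -- the same for `x1`
    have h1 : ∀ y, f y = r → Rack.act' x1 y = y := by
      by_cases h01 : x0 = x1
      · rw [← h01]
        exact h0
      · obtain ⟨g, hg, hg0, -⟩ := hf.2 r x0 x1 x1 x0 rfl hx.symm hx.symm rfl h01 (Ne.symm h01)
        intro y hy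
        rw [← hg0, ← Inn.conj_act' hg.1, h0, papp]
        have : f (g⁻¹ y) = f (g (g⁻¹ y)) := (hg.2 _).symm
        rw [this, papp, hy]
    have h2 : t0 ∈ Ker f r := by
      rw [mem_Ker]
      intro y hy
      change Rack.act' x0 ((Rack.act' x1)⁻¹ y) = y
      have : (Rack.act' x1)⁻¹ y = y := by
        apply (Rack.act' x1).injective
        rw [papp, h1 y hy]
      rw [this, h0 y hy]
    exact ht0 (mem_Ker'.1 (hstep2 h2) _)
  · intro g hg y
    apply Subtype.ext
    change Rack.act' x0 (g.1 y.1) = g.1 (Rack.act' x0 y.1)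
    have hg0 : g.1 x0 = x0 := congrArg Subtype.val hg
    have := Inn.conj_act' g.2.1 x0 (g.1 y.1)
    rw [pinv, hg0] at this
    exact this.symm

end Q6.Quan
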