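import Mathlib

/-!
# Two-transitive actions on six points
-/

namespace Q6.Quan

open MulAction

universe u v w

/-- Transitivity on ordered pairs of distinct points. -/
def TwoTrans (N : Type u) (X : Type v) [Group N] [MulAction N X] : Prop :=
  ∀ a b c d : X, a ≠ b → c ≠ d → ∃ g : N, g • a = c ∧ g • b = d

section General

variable {N : Type u} {X : Type v} {Y : Type w} [Group N] [MulAction N X] [MulAction N Y]

/-- A normal subgroup acting nontrivially is transitive. -/
lemma normal_trans (h2 : TwoTrans N X) {A : Subgroup N} (hA : A.Normal) {a : N} (ha : a ∈ A)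
    {x : X} (hax : a • x ≠ x) (y z : X) : ∃ b ∈ A, b • y = z := by
  by_cases hyz : y = z
  · exact ⟨1, A.one_mem, by rw [one_smul, hyz]⟩
  · obtain ⟨g, h1, h2⟩ := h2 x (a • x) y z (Ne.symm hax) hyz
    refine ⟨g * a * g⁻¹, hA.conj_mem a ha g, ?_⟩
    rw [mul_smul, mul_smul, ← h1, inv_smul_smul, h2]

/-- A subgroup commuting with a transitive one is semiregular. -/
lemma semiregular {A B : Subgroup N} (hAB : ∀ a ∈ A, ∀ b ∈ B, ∀ x : X, a • b • x = b • a • x)
    (hB : ∀ y z : X, ∃ b ∈ B, b • y = z) {a : N} (ha : a ∈ A) {x : X} (hx : a • x = x) (y : X) :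
    a • y = y := by
  obtain ⟨b, hb, rfl⟩ := hB x y
  rw [hAB a ha b hb, hx]

/-- The image of a transitive subgroup has order divisible by the number of points. -/
lemma card_dvd_of_trans {A : Subgroup N} (hA : ∀ y z : Y, ∃ b ∈ A, b • y = z) (y : Y) :
    Nat.card Y ∣ Nat.card (A.map (toPermHom N Y)) := by
  have : IsPretransitive (A.map (toPermHom N Y)) Y := by
    constructor
    intro y z
    obtain ⟨b, hb, h⟩ := hA y z
    exact ⟨⟨toPermHom N Y b, b, hb, rfl⟩, h⟩
  rw [← index_stabilizer_of_transitive (A.map (toPermHom N Y)) y]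
  exact Subgroup.index_dvd_card _

/-- Core lemma: a normal subgroup which is semiregular on a two-transitive set cannot act
nontrivially on a two-transitive set of six points. -/
lemma core (h2X : TwoTrans N X) (h2Y : TwoTrans N Y) (hY : Nat.card Y = 6) (x : X)
    {A : Subgroup N} (hA : A.Normal) (hsr : ∀ a ∈ A, ∀ x : X, a • x = x → ∀ y : Y, a • y = y)
    {a : N} (ha : a ∈ A) (y : Y) : a • y = y := by
  by_contra hne
  have hfin : Finite Y := Nat.finite_of_card_ne_zero (by rw [hY]; decide)
  have htr := normal_trans h2Y hA ha hne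
  have h6 := card_dvd_of_trans htr y
  rw [hY] at h6
  obtain ⟨γ, hγ⟩ := exists_prime_orderOf_dvd_card' (G := A.map (toPermHom N Y)) 2
    (dvd_trans (by decide) h6)
  obtain ⟨δ, hδ⟩ := exists_prime_orderOf_dvd_card' (G := A.map (toPermHom N Y)) 3
    (dvd_trans (by decide) h6)
  rw [← Subgroup.orderOf_coe] at hγ hδ
  obtain ⟨u, hu, hu'⟩ := γ.2
  obtain ⟨v, hv, hv'⟩ := δ.2
  rw [← hu'] at hγ
  rw [← hv'] at hδ
  have hu1 : ¬ ∀ y : Y, u • y = y := by
    intro h
    have : toPermHom N Y u = 1 := by
      ext y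
      exact h y
    rw [this, orderOf_one] at hγ
    exact absurd hγ (by decide)
  have hv1 : ¬ ∀ y : Y, v • y = y := by
    intro h
    have : toPermHom N Y v = 1 := by
      ext y
      exact h y
    rw [this, orderOf_one] at hδ
    exact absurd hδ (by decide)
  have hux : u • x ≠ x := fun h => hu1 (hsr u hu x h)
  have hvx : v • x ≠ x := fun h => hv1 (hsr v hv x h)
  obtain ⟨g, hg1, hg2⟩ := h2X x (u • x) x (v • x) (Ne.symm hux) (Ne.symm hvx)
  have hw : v⁻¹ * (g * u * g⁻¹) ∈ A := A.mul_mem (A.inv_mem hv) (hA.conj_mem u hu g)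
  have hwx : (v⁻¹ * (g * u * g⁻¹)) • x = x := by
    have : g⁻¹ • x = x := by rw [inv_smul_eq_iff, hg1]
    rw [mul_smul, mul_smul, mul_smul, this, hg2, inv_smul_smul]
  have hwY := hsr _ hw x hwx
  have he : toPermHom N Y v = toPermHom N Y g * toPermHom N Y u * (toPermHom N Y g)⁻¹ := by
    have : toPermHom N Y (v⁻¹ * (g * u * g⁻¹)) = 1 := by
      ext y
      exact hwY y
    rw [map_mul, map_inv, map_mul, map_mul, map_inv, inv_mul_eq_one] at this
    exact this
  have hsc : SemiconjBy (toPermHom N Y g) (toPermHom N Y u) (toPermHom N Y v) := by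
    rw [he]
    exact SemiconjBy.conj_mk _ _
  rw [← hsc.orderOf_eq, hγ] at hδ
  exact absurd hδ (by decide)

/-- In a two-transitive group on `n` points, the order of the image is divisible by
`n * (n - 1)`. -/
lemma mul_dvd_index (h2 : TwoTrans N X) [Finite X] {K : Subgroup N}
    (hK : K ≤ (toPermHom N X).ker) {x z : X} (hxz : x ≠ z) :
    Nat.card X * (Nat.card X - 1) ∣ K.index := by
  classical
  have := Fintype.ofFinite X
  have h1 : K ≤ stabilizer N (x, z) := by
    intro g hg
    have h3 : toPermHom N X g = 1 := hK hg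
    rw [mem_stabilizer_iff]
    exact Prod.ext (DFunLike.congr_fun h3 x) (DFunLike.congr_fun h3 z)
  have h3 : (stabilizer N (x, z)).index = Nat.card X * (Nat.card X - 1) := by
    rw [index_stabilizer]
    have h4 : orbit N (x, z) = ((Finset.univ : Finset X).offDiag : Set (X × X)) := by
      ext ⟨a, b⟩
      rw [Finset.mem_coe, Finset.mem_offDiag]
      constructor
      · rintro ⟨g, hg⟩
        have e1 : g • x = a := congrArg Prod.fst hg
        have e2 : g • z = b := congrArg Prod.snd hg
        refine ⟨Finset.mem_univ _, Finset.mem_univ _, fun hab => hxz ?_⟩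
        have : a = b := hab
        rw [← e1, ← e2] at this
        exact MulAction.injective g this
      · rintro ⟨-, -, hab⟩
        obtain ⟨g, hg1, hg2⟩ := h2 x z a b hxz hab
        exact ⟨g, Prod.ext hg1 hg2⟩
    rw [h4, Set.ncard_coe_finset, Finset.offDiag_card, Finset.card_univ, Nat.card_eq_fintype_card,
      Nat.mul_sub, mul_one]
  rw [← h3]
  exact Subgroup.index_dvd_of_le h1

lemma stabilizer_index (h2 : TwoTrans N X) [Nontrivial X] (x : X) :
    (stabilizer N x).index = Nat.card X := by
  have : IsPretransitive N X := by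
    constructor
    intro a b
    obtain ⟨a', ha⟩ := exists_ne a
    obtain ⟨b', hb⟩ := exists_ne b
    obtain ⟨g, hg, -⟩ := h2 a a' b b' ha.symm hb.symm
    exact ⟨g, hg⟩
  exact index_stabilizer_of_transitive N x

end General

/-! ### Prime order permutations commuting with a transitive group -/

section Centr

variable {N : Type u} {X : Type v} [Group N] [MulAction N X]

/-- The order of a point stabiliser (modulo the kernel) divides the order of the centraliser of a
semiregular permutation of prime order. -/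
lemma stab_dvd (h2 : TwoTrans N X) [Finite X] {x : X} (σ : Equiv.Perm X) (hσ : σ ≠ 1)
    (hσx : σ x = x) (hc : ∀ g : N, g • x = x → ∀ y, σ (g • y) = g • σ y) :
    ∃ p k : ℕ, p.Prime ∧ p * k + 1 = Nat.card X ∧
      Nat.card ((stabilizer N x).map (toPermHom N X)) ∣ p ^ k * k.factorial := by
  classical
  have := Fintype.ofFinite X
  have ho : orderOf σ ≠ 1 := fun h => hσ (orderOf_eq_one_iff.1 h)
  have hop : 0 < orderOf σ := orderOf_pos σ
  set p := (orderOf σ).minFac with hp
  have hpp : p.Prime := Nat.minFac_prime ho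
  have hpd : p ∣ orderOf σ := Nat.minFac_dvd _
  set τ := σ ^ (orderOf σ / p) with hτ
  have hτo : orderOf τ = p := orderOf_pow_orderOf_div hop.ne' hpd
  have hτ1 : τ ≠ 1 := fun h => by
    rw [h, orderOf_one] at hτo
    exact hpp.one_lt.ne hτo
  have hcn : ∀ n : ℕ, (σ ^ n) x = x ∧ ∀ g : N, g • x = x → ∀ y, (σ ^ n) (g • y) = g • (σ ^ n) y := by
    intro n
    induction n with
    | zero => exact ⟨rfl, fun g _ y => rfl⟩
    | succ n ih =>
      refine ⟨?_, fun g hg y => ?_⟩
      · rw [pow_succ, Equiv.Perm.mul_apply, hσx, ih.1]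
      · rw [pow_succ, Equiv.Perm.mul_apply, Equiv.Perm.mul_apply, hc g hg, ih.2 g hg]
  have hτx : τ x = x := (hcn _).1
  have hτc : ∀ g : N, g • x = x → ∀ y, τ (g • y) = g • τ y := (hcn _).2
  have hτf : ∀ z, z ≠ x → τ z ≠ z := by
    intro z hz hfix
    apply hτ1
    ext z'
    by_cases hz' : z' = x
    · rw [hz', hτx]
      rfl
    · obtain ⟨g, hg1, hg2⟩ := h2 x z x z' (Ne.symm hz) (Ne.symm hz')
      rw [← hg2, hτc g hg1, hfix]
      rfl
  have hsupp : τ.support = Finset.univ.erase x := by
    ext z
    rw [Equiv.Perm.mem_support, Finset.mem_erase]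
    constructor
    · intro h
      exact ⟨fun hz => h (by rw [hz, hτx]), Finset.mem_univ _⟩
    · rintro ⟨h, -⟩
      exact hτf z h
  obtain ⟨n, hn⟩ := Equiv.Perm.cycleType_prime_order (hτo ▸ hpp : (orderOf τ).Prime)
  rw [hτo] at hn
  have hsum : (n + 1) * p = Fintype.card X - 1 := by
    have h3 := Equiv.Perm.sum_cycleType τ
    rw [hn, Multiset.sum_replicate, hsupp, Finset.card_erase_of_mem (Finset.mem_univ _),
      Finset.card_univ, smul_eq_mul] at h3
    exact h3
  have hpos : 0 < Fintype.card X := Fintype.card_pos_iff.2 ⟨x⟩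
  refine ⟨p, n + 1, hpp, ?_, ?_⟩
  · rw [Nat.card_eq_fintype_card, mul_comm, hsum]
    omega
  · have hcard := Equiv.Perm.nat_card_centralizer τ
    rw [hn, Multiset.sum_replicate, Multiset.prod_replicate, smul_eq_mul, hsum,
      Multiset.toFinset_replicate, if_neg (Nat.succ_ne_zero n), Finset.prod_singleton,
      Multiset.count_replicate_self] at hcard
    have h1 : Fintype.card X - (Fintype.card X - 1) = 1 := by omega
    rw [h1, Nat.factorial_one, one_mul] at hcard
    rw [← hcard]
    apply Subgroup.card_dvd_of_le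
    rintro _ ⟨g, hg, rfl⟩
    rw [Subgroup.mem_centralizer_singleton_iff]
    ext y
    exact (hτc g hg y).symm

end Centr

end Q6.Quan
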